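import Mathlib

namespace Pool.Agent.Lib.MP_b37e0c_co

/-- Euclidean three-space. -/
abbrev E3 : Type := EuclideanSpace ℝ (Fin 3)

/-- The unit sphere of three-space. -/
def sph : Set E3 := Metric.sphere 0 1

/-- The north pole `(0,0,1)`. -/
noncomputable def northPole : E3 := EuclideanSpace.single 2 1

/-- The great-circle arc between two non-antipodal points `a` and `b` of the unit sphere: the
points of the sphere that are non-negative combinations of `a` and `b`. It is the unique shortest
path from `a` to `b`, and its length is the angle between `a` and `b`, which is less than `π`. -/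
def arc (a b : E3) : Set E3 := {x | x ∈ sph ∧ ∃ s t : ℝ, 0 ≤ s ∧ 0 ≤ t ∧ x = s • a + t • b}

/-- `p` is a shortest-path embedding of the graph `G` in the unit sphere: vertices are distinct
points of the sphere, the ends of an edge are not antipodal (so the edge is drawn as an arc of
length less than `π`, the unique shortest path), no vertex lies on an edge of which it is not an
end, and two distinct edges meet only at common ends. -/
structure IsEmbedding {V : Type} (G : SimpleGraph V) (p : V → E3) : Prop where
  on_sphere : ∀ v, p v ∈ sph
  injective : Function.Injective p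
  short : ∀ u v, G.Adj u v → p u ≠ -p v
  vertex_edge : ∀ u v w, G.Adj u v → p w ∈ arc (p u) (p v) → w = u ∨ w = v
  edge_edge : ∀ u v u' v', G.Adj u v → G.Adj u' v' → s(u, v) ≠ s(u', v') →
    ∀ x ∈ arc (p u) (p v) ∩ arc (p u') (p v'), ∃ w, (w = u ∨ w = v) ∧ (w = u' ∨ w = v') ∧ x = p w

/-- The set of points of the sphere on a vertex or an edge of the drawing. -/
def drawing {V : Type} (G : SimpleGraph V) (p : V → E3) : Set E3 :=
  {x | (∃ v, x = p v) ∨ ∃ u v, G.Adj u v ∧ x ∈ arc (p u) (p v)}

/-- The open spherical triangle with corners `a`, `b`, `c`. -/
def openTriangle (a b c : E3) : Set E3 :=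
  {x | x ∈ sph ∧ ∃ r s t : ℝ, 0 < r ∧ 0 < s ∧ 0 < t ∧ x = r • a + s • b + t • c}

/-- `p` is a shortest-path triangulation of the sphere by the graph `G`: a shortest-path embedding
of a graph with `3|V| - 6` edges (maximal planar) in which every face, i.e. every connected
component of the complement of the drawing, is an open spherical triangle whose corners are three
pairwise adjacent vertices not on a common great circle. -/
structure IsTriangulation {V : Type} (G : SimpleGraph V) (p : V → E3) : Prop where
  embedding : IsEmbedding G p
  maximal : Nat.card G.edgeSet = 3 * Nat.card V - 6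
  faces : ∀ x ∈ sph \ drawing G p, ∃ u v w, G.Adj u v ∧ G.Adj v w ∧ G.Adj u w ∧
    LinearIndependent ℝ ![p u, p v, p w] ∧
    connectedComponentIn (sph \ drawing G p) x = openTriangle (p u) (p v) (p w)

/-- The longitude of a point `q` different from the poles: the open half great circle from the
north pole to the south pole through `q`. -/
def longitude (q : E3) : Set E3 :=
  {x | x ∈ sph ∧ ∃ s t : ℝ, 0 < s ∧ x = s • q + t • northPole}

/-- `p` is sinkable: some longitudinal morph (a continuous family `P t`, `0 ≤ t ≤ 1`, of
shortest-path embeddings of `G` in which every vertex stays on its own longitude) takes `p` to an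
embedding with all vertices in the open southern hemisphere. -/
def Sinkable {V : Type} (G : SimpleGraph V) (p : V → E3) : Prop :=
  ∃ P : unitInterval → V → E3, (∀ v, Continuous fun t => P t v) ∧ (∀ t, IsEmbedding G (P t)) ∧
    P 0 = p ∧ (∀ t v, P t v ∈ longitude (p v)) ∧ ∀ v, (P 1 v) 2 < 0

end Pool.Agent.Lib.MP_b37e0c_co
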