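import Mathlib
import Pool.Agent.Lib.MP_b37e0c_co.Defs

namespace Pool.Agent.Lib.MP_b37e0c_co

open Topology Filter

/-- the determinant of three vectors -/
def det3 (a b c : E3) : ℝ :=
  a 0 * (b 1 * c 2 - b 2 * c 1) - a 1 * (b 0 * c 2 - b 2 * c 0) + a 2 * (b 0 * c 1 - b 1 * c 0)

theorem det3_rot (a b c : E3) : det3 b c a = det3 a b c := by unfold det3; ring
theorem det3_swap (a b c : E3) : det3 b a c = -det3 a b c := by unfold det3; ring
theorem det3_self12 (a c : E3) : det3 a a c = 0 := by unfold det3; ring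
theorem det3_self23 (a b : E3) : det3 a b b = 0 := by unfold det3; ring
theorem det3_self13 (a b : E3) : det3 a b a = 0 := by unfold det3; ring

theorem det3_add3 (a b x y : E3) : det3 a b (x + y) = det3 a b x + det3 a b y := by
  simp [det3]; ring
theorem det3_smul3 (a b x : E3) (t : ℝ) : det3 a b (t • x) = t * det3 a b x := by
  simp [det3]; ring
theorem det3_sub3 (a b x y : E3) : det3 a b (x - y) = det3 a b x - det3 a b y := by
  simp [det3]; ring
theorem det3_add2 (a x y c : E3) : det3 a (x + y) c = det3 a x c + det3 a y c := by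
  simp [det3]; ring
theorem det3_smul2 (a x c : E3) (t : ℝ) : det3 a (t • x) c = t * det3 a x c := by
  simp [det3]; ring
theorem det3_add1 (x y b c : E3) : det3 (x + y) b c = det3 x b c + det3 y b c := by
  simp [det3]; ring
theorem det3_smul1 (x b c : E3) (t : ℝ) : det3 (t • x) b c = t * det3 x b c := by
  simp [det3]; ring
theorem det3_zero3 (a b : E3) : det3 a b 0 = 0 := by simp [det3]
theorem det3_zero1 (a b : E3) : det3 0 a b = 0 := by simp [det3]

theorem cramer (a b c x : E3) :
    det3 a b c • x = det3 x b c • a + det3 a x c • b + det3 a b x • c := by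
  ext i
  fin_cases i <;> simp [det3] <;> ring

@[fun_prop]
theorem continuous_det3_1 (b c : E3) : Continuous fun x => det3 x b c := by
  unfold det3; fun_prop
@[fun_prop]
theorem continuous_det3_2 (a c : E3) : Continuous fun x => det3 a x c := by
  unfold det3; fun_prop
@[fun_prop]
theorem continuous_det3_3 (a b : E3) : Continuous fun x => det3 a b x := by
  unfold det3; fun_prop

/-- An oriented triangulated closed surface with vertices at the vectors `P v`, given by its darts:
`ι` is the type of darts, `src i` the initial vertex of the dart `i`, `rot i` the next dart around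
the face to the left of `i`, and `rev i` the reversed dart. -/
structure Fan (V ι : Type) [Fintype ι] (P : V → E3) where
  src : ι → V
  rot : ι → ι
  rev : ι → ι
  rot3 : ∀ i, rot (rot (rot i)) = i
  rev2 : ∀ i, rev (rev i) = i
  src_rev : ∀ i, src (rev i) = src (rot i)
  pos : ∀ i, 0 < det3 (P (src i)) (P (src (rot i))) (P (src (rot (rot i))))
  vert : ∀ v, ∃ i, src i = v
  sep : ∀ i w, w ≠ src i → w ≠ src (rot i) →
    ∀ s t : ℝ, 0 ≤ s → 0 ≤ t → P w ≠ s • P (src i) + t • P (src (rot i))

namespace Fan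

variable {V ι : Type} [Fintype ι] {P : V → E3} (F : Fan V ι P)

/-- first vertex of the face of a dart -/
abbrev A (i : ι) : E3 := P (F.src i)
/-- second vertex of the face of a dart -/
abbrev B (i : ι) : E3 := P (F.src (F.rot i))
/-- third vertex of the face of a dart -/
abbrev C (i : ι) : E3 := P (F.src (F.rot (F.rot i)))

/-- `x` is in the open cone over the face of the dart `i`. -/
def In (i : ι) (x : E3) : Prop :=
  0 < det3 x (F.B i) (F.C i) ∧ 0 < det3 (F.A i) x (F.C i) ∧ 0 < det3 (F.A i) (F.B i) x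

/-- `x` is in the relatively open cone over the edge of the dart `i`. -/
def On (i : ι) (x : E3) : Prop := ∃ s t : ℝ, 0 < s ∧ 0 < t ∧ x = s • F.A i + t • F.B i

/-- `x` is not on the ray of a vertex. -/
def NV (P : V → E3) (x : E3) : Prop := ∀ v, ∀ s : ℝ, 0 ≤ s → x ≠ s • P v

theorem src_rev' (i : ι) : F.src (F.rot (F.rev i)) = F.src i := by
  have h := F.src_rev (F.rev i)
  rw [F.rev2] at h
  exact h.symm

theorem On_rev (i : ι) (x : E3) : F.On (F.rev i) x ↔ F.On i x := by
  unfold On A B
  rw [F.src_rev, F.src_rev']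
  constructor
  · rintro ⟨s, t, hs, ht, h⟩
    exact ⟨t, s, ht, hs, by rw [h, add_comm]⟩
  · rintro ⟨s, t, hs, ht, h⟩
    exact ⟨t, s, ht, hs, by rw [h, add_comm]⟩

theorem In_rot (i : ι) (x : E3) : F.In (F.rot i) x ↔ F.In i x := by
  unfold In A B C
  rw [F.rot3]
  have e1 : det3 x (P (F.src (F.rot (F.rot i)))) (P (F.src i)) =
      det3 (P (F.src i)) x (P (F.src (F.rot (F.rot i)))) := by unfold det3; ring
  have e2 : det3 (P (F.src (F.rot i))) x (P (F.src i)) =
      det3 (P (F.src i)) (P (F.src (F.rot i))) x := by unfold det3; ring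
  have e3 : det3 (P (F.src (F.rot i))) (P (F.src (F.rot (F.rot i)))) x =
      det3 x (P (F.src (F.rot i))) (P (F.src (F.rot (F.rot i)))) := by unfold det3; ring
  rw [e1, e2, e3]
  tauto

theorem posABC (i : ι) : 0 < det3 (F.A i) (F.B i) (F.C i) := F.pos i

/-- `On` in terms of determinants. -/
theorem On_iff (i : ι) (x : E3) : F.On i x ↔
    det3 (F.A i) (F.B i) x = 0 ∧ 0 < det3 x (F.B i) (F.C i) ∧ 0 < det3 (F.A i) x (F.C i) := by
  have hp := F.posABC i
  constructor
  · rintro ⟨s, t, hs, ht, rfl⟩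
    refine ⟨?_, ?_, ?_⟩
    · rw [det3_add3, det3_smul3, det3_smul3, det3_self13, det3_self23]; ring
    · rw [det3_add1, det3_smul1, det3_smul1, det3_self12]
      simp only [mul_zero, add_zero]
      positivity
    · rw [det3_add2, det3_smul2, det3_smul2, det3_self12]
      simp only [mul_zero, zero_add]
      positivity
  · rintro ⟨h0, h1, h2⟩
    refine ⟨det3 x (F.B i) (F.C i) / det3 (F.A i) (F.B i) (F.C i),
      det3 (F.A i) x (F.C i) / det3 (F.A i) (F.B i) (F.C i), by positivity, by positivity, ?_⟩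
    have h := cramer (F.A i) (F.B i) (F.C i) x
    rw [h0, zero_smul, add_zero] at h
    have h' : x = (det3 (F.A i) (F.B i) (F.C i))⁻¹ • (det3 (F.A i) (F.B i) (F.C i) • x) := by
      rw [smul_smul, inv_mul_cancel₀ hp.ne', one_smul]
    conv_lhs => rw [h', h]
    rw [smul_add, smul_smul, smul_smul]
    congr 2 <;> ring

/-- the linear functional vanishing on the plane of the dart `i`, positive on its face -/
def ell (i : ι) (x : E3) : ℝ := det3 (F.A i) (F.B i) x

theorem ell_rot (i : ι) (x : E3) : F.ell (F.rot i) x = det3 x (F.B i) (F.C i) := by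
  unfold ell A B C; unfold det3; ring

theorem ell_rot2 (i : ι) (x : E3) : F.ell (F.rot (F.rot i)) x = det3 (F.A i) x (F.C i) := by
  unfold ell A B C; rw [F.rot3]; unfold det3; ring

theorem ell_rev (i : ι) (x : E3) : F.ell (F.rev i) x = -F.ell i x := by
  unfold ell A B
  rw [F.src_rev, F.src_rev']
  exact det3_swap _ _ _

theorem ell_add (i : ι) (x y : E3) : F.ell i (x + y) = F.ell i x + F.ell i y := det3_add3 _ _ _ _
theorem ell_sub (i : ι) (x y : E3) : F.ell i (x - y) = F.ell i x - F.ell i y := det3_sub3 _ _ _ _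
theorem ell_smul (i : ι) (t : ℝ) (x : E3) : F.ell i (t • x) = t * F.ell i x := det3_smul3 _ _ _ _

theorem continuous_ell (i : ι) : Continuous (F.ell i) := by unfold ell; fun_prop

theorem In_iff_ell (i : ι) (x : E3) : F.In i x ↔
    0 < F.ell i x ∧ 0 < F.ell (F.rot i) x ∧ 0 < F.ell (F.rot (F.rot i)) x := by
  rw [ell_rot, ell_rot2]
  unfold In ell
  tauto

theorem On_iff_ell (i : ι) (x : E3) : F.On i x ↔
    F.ell i x = 0 ∧ 0 < F.ell (F.rot i) x ∧ 0 < F.ell (F.rot (F.rot i)) x := by
  rw [ell_rot, ell_rot2, On_iff]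
  rfl

/-- a point not on a vertex ray cannot be on two edges of a face -/
theorem two_zero {i : ι} {x : E3} (hx : NV P x) (h1 : F.ell (F.rot i) x = 0)
    (h2 : F.ell (F.rot (F.rot i)) x = 0) : F.ell i x < 0 := by
  rw [ell_rot] at h1
  rw [ell_rot2] at h2
  by_contra h3
  push Not at h3
  unfold ell at h3
  have hp := F.posABC i
  have h := cramer (F.A i) (F.B i) (F.C i) x
  rw [h1, h2, zero_smul, zero_smul, zero_add, zero_add] at h
  have hc : x = (det3 (F.A i) (F.B i) x / det3 (F.A i) (F.B i) (F.C i)) • F.C i := by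
    have h' : x = (det3 (F.A i) (F.B i) (F.C i))⁻¹ • (det3 (F.A i) (F.B i) (F.C i) • x) := by
      rw [smul_smul, inv_mul_cancel₀ hp.ne', one_smul]
    conv_lhs => rw [h', h]
    rw [smul_smul]
    congr 1
    ring
  exact hx (F.src (F.rot (F.rot i))) _ (div_nonneg h3 hp.le) hc

theorem casework {a b c a' b' c' da db dc : ℝ} (k0 : (0 < a → 0 < a') ∧ (a < 0 → a' < 0))
    (k1 : (0 < b → 0 < b') ∧ (b < 0 → b' < 0)) (k2 : (0 < c → 0 < c') ∧ (c < 0 → c' < 0))
    (e0 : a = 0 → a' = da) (e1 : b = 0 → b' = db) (e2 : c = 0 → c' = dc)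
    (z0 : b = 0 → c = 0 → a < 0) (z1 : c = 0 → a = 0 → b < 0) (z2 : a = 0 → b = 0 → c < 0) :
    (0 < a' ∧ 0 < b' ∧ 0 < c') ↔ (0 < a ∧ 0 < b ∧ 0 < c) ∨ ((a = 0 ∧ 0 < b ∧ 0 < c) ∧ 0 < da) ∨
      ((b = 0 ∧ 0 < c ∧ 0 < a) ∧ 0 < db) ∨ ((c = 0 ∧ 0 < a ∧ 0 < b) ∧ 0 < dc) := by
  rcases lt_trichotomy a 0 with ha | ha | ha <;> rcases lt_trichotomy b 0 with hb | hb | hb <;>
    rcases lt_trichotomy c 0 with hc | hc | hc <;> grind

/-- how membership in the open cone of a face changes along a line through `x0` -/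
theorem local_In {x0 d : E3} (hx : NV P x0) (i : ι) : ∀ᶠ t in 𝓝[≠] (0 : ℝ),
    (F.In i (x0 + t • d) ↔ F.In i x0 ∨ (F.On i x0 ∧ 0 < t * F.ell i d) ∨
      (F.On (F.rot i) x0 ∧ 0 < t * F.ell (F.rot i) d) ∨
      (F.On (F.rot (F.rot i)) x0 ∧ 0 < t * F.ell (F.rot (F.rot i)) d)) := by
  have key : ∀ j, ∀ᶠ t in 𝓝[≠] (0 : ℝ), (0 < F.ell j x0 → 0 < F.ell j (x0 + t • d)) ∧
      (F.ell j x0 < 0 → F.ell j (x0 + t • d) < 0) := by
    intro j
    have hc : Tendsto (fun t : ℝ => F.ell j (x0 + t • d)) (𝓝[≠] 0) (𝓝 (F.ell j x0)) := by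
      have h1 : Continuous fun t : ℝ => F.ell j (x0 + t • d) := by
        apply (F.continuous_ell j).comp; fun_prop
      have h2 := h1.tendsto 0
      simp only [zero_smul, add_zero] at h2
      exact h2.mono_left nhdsWithin_le_nhds
    rw [Filter.eventually_and]
    constructor
    · by_cases h : 0 < F.ell j x0
      · filter_upwards [hc.eventually_const_lt h] with t ht _ using ht
      · exact Filter.Eventually.of_forall fun t h' => absurd h' h
    · by_cases h : F.ell j x0 < 0
      · filter_upwards [hc.eventually_lt_const h] with t ht _ using ht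
      · exact Filter.Eventually.of_forall fun t h' => absurd h' h
  filter_upwards [key i, key (F.rot i), key (F.rot (F.rot i))] with t k0 k1 k2
  have e : ∀ j, F.ell j x0 = 0 → F.ell j (x0 + t • d) = t * F.ell j d := by
    intro j hj
    rw [ell_add, ell_smul, hj, zero_add]
  have hr3 := F.rot3 i
  have z0 := F.two_zero (i := i) hx
  have z1 := F.two_zero (i := F.rot i) hx
  have z2 := F.two_zero (i := F.rot (F.rot i)) hx
  rw [hr3] at z1 z2
  rw [In_iff_ell, In_iff_ell, On_iff_ell, On_iff_ell, On_iff_ell, hr3]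
  exact casework k0 k1 k2 (e i) (e (F.rot i)) (e (F.rot (F.rot i))) z0 z1 z2

end Fan

end Pool.Agent.Lib.MP_b37e0c_co
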