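import Mathlib
import Pool.Agent.Lib.MP_b37e0c_co.Geom

namespace Pool.Agent.Lib.MP_b37e0c_co

open Topology Filter

namespace Fan

variable {V ι : Type} [Fintype ι] {P : V → E3} (F : Fan V ι P)

/-- number of darts whose face contains `x` in its open cone -/
noncomputable def cntIn (x : E3) : ℕ := by
  classical exact (Finset.univ.filter (fun i => F.In i x)).card

/-- number of darts whose edge contains `x` in its relatively open cone -/
noncomputable def cntOn (x : E3) : ℕ := by
  classical exact (Finset.univ.filter (fun i => F.On i x)).card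

/-- the weighted covering number (three times twice the number of faces over `x`) -/
noncomputable def M (x : E3) : ℕ := 2 * F.cntIn x + 3 * F.cntOn x

/-- `rot` as a permutation -/
def rotE : ι ≃ ι where
  toFun := F.rot
  invFun := fun i => F.rot (F.rot i)
  left_inv := F.rot3
  right_inv := F.rot3

/-- `rev` as a permutation -/
def revE : ι ≃ ι where
  toFun := F.rev
  invFun := F.rev
  left_inv := F.rev2
  right_inv := F.rev2

theorem count_eq {x0 x1 d : E3} {t : ℝ} (ht : t ≠ 0)
    (hd : ∀ i, F.On i x0 → F.ell i d ≠ 0)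
    (h : ∀ i, (F.In i x1 ↔ F.In i x0 ∨ (F.On i x0 ∧ 0 < t * F.ell i d) ∨
      (F.On (F.rot i) x0 ∧ 0 < t * F.ell (F.rot i) d) ∨
      (F.On (F.rot (F.rot i)) x0 ∧ 0 < t * F.ell (F.rot (F.rot i)) d))) :
    2 * F.cntIn x1 = F.M x0 := by
  classical
  let g : ι → ℕ := fun i => if F.On i x0 ∧ 0 < t * F.ell i d then 1 else 0
  have hrot : ∑ i, g (F.rot i) = ∑ i, g i := Equiv.sum_comp F.rotE g
  have hrot2 : ∑ i, g (F.rot (F.rot i)) = ∑ i, g i := by
    have := Equiv.sum_comp (F.rotE.trans F.rotE) g
    simpa [rotE] using this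
  have hrev : ∑ i, g (F.rev i) = ∑ i, g i := Equiv.sum_comp F.revE g
  have hIn : F.cntIn x1 = F.cntIn x0 + 3 * ∑ i, g i := by
    have e1 : F.cntIn x1 = ∑ i, (if F.In i x1 then 1 else 0) := by
      unfold cntIn; rw [Finset.card_filter]
    have e0 : F.cntIn x0 = ∑ i, (if F.In i x0 then 1 else 0) := by
      unfold cntIn; rw [Finset.card_filter]
    have e2 : ∑ i, (if F.In i x1 then 1 else 0) =
        ∑ i, ((if F.In i x0 then 1 else 0) + g i + g (F.rot i) + g (F.rot (F.rot i))) := by
      apply Finset.sum_congr rfl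
      intro i _
      simp only [g]
      have hi := h i
      have x1 := F.In_iff_ell i x0
      have x2 := F.On_iff_ell i x0
      have x3 := F.On_iff_ell (F.rot i) x0
      have x4 := F.On_iff_ell (F.rot (F.rot i)) x0
      rw [F.rot3] at x3 x4
      have hx12 : F.In i x0 → ¬ F.On i x0 := by
        intro u v; rw [x1] at u; rw [x2] at v; linarith [u.1, v.1]
      have hx13 : F.In i x0 → ¬ F.On (F.rot i) x0 := by
        intro u v; rw [x1] at u; rw [x3] at v; linarith [u.2.1, v.1]
      have hx14 : F.In i x0 → ¬ F.On (F.rot (F.rot i)) x0 := by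
        intro u v; rw [x1] at u; rw [x4] at v; linarith [u.2.2, v.1]
      have hx23 : F.On i x0 → ¬ F.On (F.rot i) x0 := by
        intro u v; rw [x2] at u; rw [x3] at v; linarith [u.1, v.2.2]
      have hx24 : F.On i x0 → ¬ F.On (F.rot (F.rot i)) x0 := by
        intro u v; rw [x2] at u; rw [x4] at v; linarith [u.1, v.2.1]
      have hx34 : F.On (F.rot i) x0 → ¬ F.On (F.rot (F.rot i)) x0 := by
        intro u v; rw [x3] at u; rw [x4] at v; linarith [u.1, v.2.2]
      by_cases c1 : F.In i x0
      · have c2 := hx12 c1; have c3 := hx13 c1; have c4 := hx14 c1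
        simp [hi, c1, c2, c3, c4]
      · by_cases c2 : F.On i x0
        · have c3 := hx23 c2; have c4 := hx24 c2
          simp [hi, c1, c2, c3, c4]
        · by_cases c3 : F.On (F.rot i) x0
          · have c4 := hx34 c3
            simp [hi, c1, c2, c3, c4]
          · simp [hi, c1, c2, c3]
    rw [e1, e2, e0]
    simp only [Finset.sum_add_distrib, hrot, hrot2]
    ring
  have hOn : F.cntOn x0 = 2 * ∑ i, g i := by
    have e0 : F.cntOn x0 = ∑ i, (if F.On i x0 then 1 else 0) := by
      unfold cntOn; rw [Finset.card_filter]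
    have e1 : ∑ i, (if F.On i x0 then 1 else 0) = ∑ i, (g i + g (F.rev i)) := by
      apply Finset.sum_congr rfl
      intro i _
      simp only [g]
      rw [F.On_rev, F.ell_rev]
      by_cases c : F.On i x0
      · have hne := hd i c
        have hne' : t * F.ell i d ≠ 0 := mul_ne_zero ht hne
        rcases lt_or_gt_of_ne hne' with hlt | hgt
        · have a1 : ¬ 0 < t * F.ell i d := not_lt.mpr hlt.le
          have a2 : 0 < t * -F.ell i d := by linarith
          simp only [c, a1, a2, and_true, true_and, if_true, if_false]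
        · have a2 : ¬ 0 < t * -F.ell i d := by linarith
          simp only [c, hgt, a2, and_true, true_and, if_true, if_false]
      · simp [c]
    rw [e0, e1, Finset.sum_add_distrib, hrev]
    ring
  unfold M
  rw [hIn, hOn]
  ring

theorem local_On {x0 d : E3} (hx : NV P x0) (hd : ∀ i, F.On i x0 → F.ell i d ≠ 0) (i : ι) :
    ∀ᶠ t in 𝓝[≠] (0 : ℝ), ¬ F.On i (x0 + t • d) := by
  have hc : ∀ j, Tendsto (fun t : ℝ => F.ell j (x0 + t • d)) (𝓝[≠] 0) (𝓝 (F.ell j x0)) := by
    intro j
    have h1 : Continuous fun t : ℝ => F.ell j (x0 + t • d) := by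
      apply (F.continuous_ell j).comp; fun_prop
    have h2 := h1.tendsto 0
    simp only [zero_smul, add_zero] at h2
    exact h2.mono_left nhdsWithin_le_nhds
  have hne : ∀ᶠ t in 𝓝[≠] (0 : ℝ), t ≠ 0 := self_mem_nhdsWithin
  by_cases h0 : F.ell i x0 = 0
  · by_cases hOn : F.On i x0
    · filter_upwards [hne] with t ht hon
      have h1 := (F.On_iff_ell i _).mp hon
      have h2 := h1.1
      rw [ell_add, ell_smul, h0, zero_add] at h2
      rcases mul_eq_zero.mp h2 with h3 | h3
      · exact ht h3
      · exact hd i hOn h3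
    · -- one of the two other functionals is negative
      have hneg : F.ell (F.rot i) x0 < 0 ∨ F.ell (F.rot (F.rot i)) x0 < 0 := by
        by_contra hcon
        push Not at hcon
        obtain ⟨p1, p2⟩ := hcon
        have hr3 := F.rot3 i
        have z1 := F.two_zero (i := F.rot i) hx
        have z2 := F.two_zero (i := F.rot (F.rot i)) hx
        rw [hr3] at z1 z2
        rcases p1.lt_or_eq with q1 | q1
        · rcases p2.lt_or_eq with q2 | q2
          · exact hOn ((F.On_iff_ell i x0).mpr ⟨h0, q1, q2⟩)
          · linarith [z1 q2.symm h0]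
        · linarith [z2 h0 q1.symm]
      rcases hneg with hneg | hneg
      · filter_upwards [(hc _).eventually_lt_const hneg] with t ht hon
        linarith [((F.On_iff_ell i _).mp hon).2.1]
      · filter_upwards [(hc _).eventually_lt_const hneg] with t ht hon
        linarith [((F.On_iff_ell i _).mp hon).2.2]
  · filter_upwards [(hc i).eventually_ne h0] with t ht hon
    exact ht ((F.On_iff_ell i _).mp hon).1

theorem local_M {x0 d : E3} (hx : NV P x0) (hd : ∀ i, F.On i x0 → F.ell i d ≠ 0) :
    ∀ᶠ t in 𝓝 (0 : ℝ), F.M (x0 + t • d) = F.M x0 := by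
  have h : ∀ᶠ t in 𝓝[≠] (0 : ℝ), F.M (x0 + t • d) = F.M x0 := by
    have h1 := Filter.eventually_all.mpr (fun i => F.local_In (d := d) hx i)
    have h2 := Filter.eventually_all.mpr (fun i => F.local_On hx hd i)
    have h3 : ∀ᶠ t in 𝓝[≠] (0 : ℝ), t ≠ 0 := self_mem_nhdsWithin
    filter_upwards [h1, h2, h3] with t a1 a2 a3
    have h4 := F.count_eq a3 hd a1
    have h5 : F.cntOn (x0 + t • d) = 0 := by
      classical
      unfold cntOn
      rw [Finset.card_eq_zero]
      apply Finset.filter_eq_empty_iff.mpr
      intro i _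
      exact a2 i
    rw [M, h5, h4]
    simp
  rw [eventually_nhdsWithin_iff] at h
  filter_upwards [h] with t ht
  by_cases h0 : t = 0
  · rw [h0, zero_smul, add_zero]
  · exact ht h0

/-- The covering number is constant along a generic segment. -/
theorem M_segment {x y : E3} (hx : ∀ i, F.ell i x ≠ 0) (hy : ∀ v, det3 x (P v) y ≠ 0) :
    F.M y = F.M x := by
  let f : ℝ → ℕ := fun t => F.M (x + t • (y - x))
  have hNV : ∀ t ∈ Set.Icc (0 : ℝ) 1, NV P (x + t • (y - x)) := by
    intro t _ v s _ h
    have h1 : det3 x (P v) (x + t • (y - x)) = 0 := by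
      rw [h, det3_smul3, det3_self23, mul_zero]
    rw [det3_add3, det3_smul3, det3_sub3, det3_self13, zero_add, sub_zero] at h1
    rcases mul_eq_zero.mp h1 with h2 | h2
    · rw [h2, zero_smul, add_zero] at h
      obtain ⟨i, hi⟩ := F.vert v
      apply hx i
      unfold ell A
      rw [hi, h, det3_smul3, det3_self13, mul_zero]
    · exact hy v h2
  have hgen : ∀ t : ℝ, ∀ i, F.On i (x + t • (y - x)) → F.ell i (y - x) ≠ 0 := by
    intro t i hon h0
    have h1 := ((F.On_iff_ell i _).mp hon).1
    rw [ell_add, ell_smul, h0, mul_zero, add_zero] at h1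
    exact hx i h1
  have hcont : ContinuousOn f (Set.Icc 0 1) := by
    intro t0 ht0
    apply ContinuousAt.continuousWithinAt
    have h1 := F.local_M (hNV t0 ht0) (hgen t0)
    have h2 : ∀ᶠ t in 𝓝 t0, f t = f t0 := by
      have h3 : Tendsto (fun t : ℝ => t - t0) (𝓝 t0) (𝓝 0) := by
        have : Tendsto (fun t : ℝ => t - t0) (𝓝 t0) (𝓝 (t0 - t0)) :=
          (continuous_id.sub continuous_const).tendsto t0
        simpa using this
      filter_upwards [h3.eventually h1] with t ht
      simp only [f]
      rw [← ht]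
      congr 1
      module
    exact (tendsto_const_nhds (x := f t0)).congr' (h2.mono fun t ht => ht.symm)
  have hpre : IsPreconnected (Set.Icc (0 : ℝ) 1) := isPreconnected_Icc
  have := hpre.constant hcont (Set.left_mem_Icc.mpr zero_le_one) (Set.right_mem_Icc.mpr zero_le_one)
  simp only [f, zero_smul, add_zero, one_smul, add_sub_cancel] at this
  exact this.symm

end Fan

end Pool.Agent.Lib.MP_b37e0c_co
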