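import Mathlib
import Pool.Agent.Lib.MP_b37e0c_co.Count

namespace Pool.Agent.Lib.MP_b37e0c_co

open Topology Filter

theorem exists_generic {κ : Type} [Finite κ] (L : κ → (E3 →ₗ[ℝ] ℝ)) (hL : ∀ k, L k ≠ 0) :
    ∃ d, ∀ k, L k d ≠ 0 := by
  by_contra hcon
  push Not at hcon
  have h : ⋃ k, ((LinearMap.ker (L k) : Submodule ℝ E3) : Set E3) = Set.univ := by
    apply Set.eq_univ_of_forall
    intro d
    obtain ⟨k, hk⟩ := hcon d
    exact Set.mem_iUnion.mpr ⟨k, hk⟩
  obtain ⟨k, hk⟩ := Subspace.exists_eq_top_of_iUnion_eq_univ h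
  exact hL k (LinearMap.ker_eq_top.mp hk)

/-- `det3` as a linear map in the third argument -/
def detL (a b : E3) : E3 →ₗ[ℝ] ℝ where
  toFun := det3 a b
  map_add' := det3_add3 a b
  map_smul' := fun t x => det3_smul3 a b x t

namespace Fan

variable {V ι : Type} [Fintype ι] {P : V → E3} (F : Fan V ι P)

theorem M_const {x : E3} (hx : ∀ i, F.ell i x ≠ 0) {y : E3} (hy : NV P y) : F.M y = F.M x := by
  obtain ⟨d, hd⟩ := exists_generic (κ := ι ⊕ ι)
    (Sum.elim (fun i => detL (F.A i) (F.B i)) (fun i => detL x (F.A i))) (by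
      rintro (i | i) h0
      · have := congrArg (fun f => f (F.C i)) h0
        simp only [Sum.elim_inl, detL, LinearMap.coe_mk, AddHom.coe_mk, LinearMap.zero_apply] at this
        linarith [F.posABC i]
      · have := congrArg (fun f => f (F.B i)) h0
        simp only [Sum.elim_inr, detL, LinearMap.coe_mk, AddHom.coe_mk, LinearMap.zero_apply] at this
        apply hx i
        unfold ell
        rw [← det3_rot]
        rw [← det3_rot]
        exact this)
  have hd1 : ∀ i, F.ell i d ≠ 0 := fun i => hd (Sum.inl i)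
  have hd2 : ∀ i, det3 x (F.A i) d ≠ 0 := fun i => hd (Sum.inr i)
  have h1 : ∀ᶠ t in 𝓝[≠] (0 : ℝ), F.M (y + t • d) = F.M y :=
    (F.local_M hy (fun i _ => hd1 i)).filter_mono nhdsWithin_le_nhds
  have h2 : ∀ᶠ t in 𝓝[≠] (0 : ℝ), ∀ i, det3 x (F.A i) (y + t • d) ≠ 0 := by
    apply Filter.eventually_all.mpr
    intro i
    by_cases h0 : det3 x (F.A i) y = 0
    · have h3 : ∀ᶠ t in 𝓝[≠] (0 : ℝ), t ≠ 0 := self_mem_nhdsWithin
      filter_upwards [h3] with t ht
      rw [det3_add3, det3_smul3, h0, zero_add]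
      exact mul_ne_zero ht (hd2 i)
    · have hc : Tendsto (fun t : ℝ => det3 x (F.A i) (y + t • d)) (𝓝[≠] 0)
          (𝓝 (det3 x (F.A i) y)) := by
        have h1 : Continuous fun t : ℝ => det3 x (F.A i) (y + t • d) := by
          apply (continuous_det3_3 x (F.A i)).comp; fun_prop
        have h2 := h1.tendsto 0
        simp only [zero_smul, add_zero] at h2
        exact h2.mono_left nhdsWithin_le_nhds
      exact hc.eventually_ne h0
  obtain ⟨t, ht1, ht2⟩ := (h1.and h2).exists
  rw [← ht1]
  apply F.M_segment hx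
  intro v
  obtain ⟨i, rfl⟩ := F.vert v
  exact ht2 i

theorem src_ne (i : ι) : F.src i ≠ F.src (F.rot i) := by
  intro h
  have := F.pos i
  rw [← h, det3_self12] at this
  exact lt_irrefl _ this

theorem rev_ne (i : ι) : F.rev i ≠ i := by
  intro h
  have := F.src_rev i
  rw [h] at this
  exact F.src_ne i this

theorem on_unique {y : E3} (hM : F.M y = 6) {i : ι} (hi : F.On i y) :
    (∀ j, F.On j y → j = i ∨ j = F.rev i) ∧ ∀ j, ¬ F.In j y := by
  classical
  have hOn2 : 2 ≤ F.cntOn y := by
    have : ({i, F.rev i} : Finset ι) ⊆ Finset.univ.filter (fun i => F.On i y) := by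
      intro j hj
      rw [Finset.mem_insert, Finset.mem_singleton] at hj
      rw [Finset.mem_filter]
      refine ⟨Finset.mem_univ _, ?_⟩
      rcases hj with rfl | rfl
      · exact hi
      · rw [F.On_rev]; exact hi
    have h2 := Finset.card_le_card this
    rw [Finset.card_pair (F.rev_ne i).symm] at h2
    unfold cntOn
    exact h2
  unfold M at hM
  constructor
  · intro j hj
    by_contra hcon
    push Not at hcon
    have : ({j, i, F.rev i} : Finset ι) ⊆ Finset.univ.filter (fun i => F.On i y) := by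
      intro k hk
      rw [Finset.mem_insert, Finset.mem_insert, Finset.mem_singleton] at hk
      rw [Finset.mem_filter]
      refine ⟨Finset.mem_univ _, ?_⟩
      rcases hk with rfl | rfl | rfl
      · exact hj
      · exact hi
      · rw [F.On_rev]; exact hi
    have h2 := Finset.card_le_card this
    rw [Finset.card_insert_of_notMem (by
      rw [Finset.mem_insert, Finset.mem_singleton]; push Not; exact hcon),
      Finset.card_pair (F.rev_ne i).symm] at h2
    have h3 : 3 ≤ F.cntOn y := by unfold cntOn; exact h2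
    omega
  · intro j hj
    have h1 : 1 ≤ F.cntIn y := by
      unfold cntIn
      exact Finset.card_pos.mpr ⟨j, Finset.mem_filter.mpr ⟨Finset.mem_univ _, hj⟩⟩
    omega

theorem NV_of_On {i : ι} {y : E3} (hi : F.On i y) : NV P y := by
  intro w r hr h
  have h2 := (F.On_iff_ell i y).mp hi
  obtain ⟨s, t, hs, ht, hst⟩ := hi
  rcases hr.eq_or_lt with h0 | h0
  · rw [← h0, zero_smul] at h
    have := h2.2.1
    rw [h] at this
    unfold ell at this
    rw [det3_zero3] at this
    exact lt_irrefl _ this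
  · by_cases hw1 : w = F.src i
    · have := h2.2.2
      rw [ell_rot2, h, hw1, det3_smul2, det3_self12, mul_zero] at this
      exact lt_irrefl _ this
    · by_cases hw2 : w = F.src (F.rot i)
      · have := h2.2.1
        rw [ell_rot, h, hw2, det3_smul1, det3_self12, mul_zero] at this
        exact lt_irrefl _ this
      · apply F.sep i w hw1 hw2 (s / r) (t / r) (by positivity) (by positivity)
        have h3 : P w = r⁻¹ • y := by rw [h, smul_smul, inv_mul_cancel₀ h0.ne', one_smul]
        rw [h3, hst, smul_add, smul_smul, smul_smul]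
        congr 2 <;> ring

theorem isOpen_In (i : ι) : IsOpen {x | F.In i x} := by
  have h : {x | F.In i x} = {x | 0 < F.ell i x} ∩ ({x | 0 < F.ell (F.rot i) x} ∩
      {x | 0 < F.ell (F.rot (F.rot i)) x}) := by
    ext x
    exact F.In_iff_ell i x
  rw [h]
  exact (isOpen_lt continuous_const (F.continuous_ell _)).inter
    ((isOpen_lt continuous_const (F.continuous_ell _)).inter
      (isOpen_lt continuous_const (F.continuous_ell _)))

theorem not_In_vertex (hM : ∀ y, NV P y → F.M y = 6) (i : ι) (w : V) (r : ℝ) (hr : 0 < r) :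
    ¬ F.In i (r • P w) := by
  intro h
  obtain ⟨j, rfl⟩ := F.vert w
  have hc : Tendsto (fun t : ℝ => r • F.A j + t • F.B j) (𝓝[>] 0) (𝓝 (r • F.A j)) := by
    have h1 : Continuous fun t : ℝ => r • F.A j + t • F.B j := by fun_prop
    have h2 := h1.tendsto 0
    simp only [zero_smul, add_zero] at h2
    exact h2.mono_left nhdsWithin_le_nhds
  have h1 := hc.eventually ((F.isOpen_In i).mem_nhds h)
  have h2 : ∀ᶠ t in 𝓝[>] (0 : ℝ), 0 < t := self_mem_nhdsWithin
  obtain ⟨t, ht1, ht2⟩ := (h1.and h2).exists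
  have hOn : F.On j (r • F.A j + t • F.B j) := ⟨r, t, hr, ht2, rfl⟩
  exact (F.on_unique (hM _ (F.NV_of_On hOn)) hOn).2 i ht1

/-- the graph of the surface -/
def graph : SimpleGraph V where
  Adj u v := ∃ i, F.src i = u ∧ F.src (F.rot i) = v
  symm := ⟨by
    rintro u v ⟨i, rfl, rfl⟩
    exact ⟨F.rev i, F.src_rev i, F.src_rev' i⟩⟩
  loopless := ⟨by
    rintro u ⟨i, h1, h2⟩
    exact F.src_ne i (h1.trans h2.symm)⟩

include F in
theorem P_ne_zero (v : V) : P v ≠ 0 := by
  intro h
  obtain ⟨i, rfl⟩ := F.vert v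
  have := F.pos i
  rw [h, det3_zero1] at this
  exact lt_irrefl _ this

end Fan

/-- the normalization of the vectors `P v` to the unit sphere -/
noncomputable def nrm {V : Type} (P : V → E3) (v : V) : E3 := (‖P v‖)⁻¹ • P v

namespace Fan

variable {V ι : Type} [Fintype ι] {P : V → E3} (F : Fan V ι P)

include F in
theorem norm_pos (v : V) : 0 < ‖P v‖ := norm_pos_iff.mpr (F.P_ne_zero v)

include F in
theorem nrm_mem (v : V) : nrm P v ∈ sph := by
  unfold nrm sph
  rw [mem_sphere_zero_iff_norm, norm_smul, norm_inv, norm_norm]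
  exact inv_mul_cancel₀ (F.norm_pos v).ne'

include F in
theorem P_eq (v : V) : P v = ‖P v‖ • nrm P v := by
  unfold nrm
  rw [smul_smul, mul_inv_cancel₀ (F.norm_pos v).ne', one_smul]

include F in
theorem arc_iff (u v : V) (x : E3) : x ∈ arc (nrm P u) (nrm P v) ↔
    x ∈ sph ∧ ∃ s t : ℝ, 0 ≤ s ∧ 0 ≤ t ∧ x = s • P u + t • P v := by
  have hu := F.norm_pos u
  have hv := F.norm_pos v
  unfold arc
  rw [Set.mem_ofPred]
  refine and_congr_right fun _ => ?_
  constructor
  · rintro ⟨s, t, hs, ht, h⟩
    refine ⟨s * ‖P u‖⁻¹, t * ‖P v‖⁻¹, by positivity, by positivity, ?_⟩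
    rw [h]
    unfold nrm
    rw [smul_smul, smul_smul]
  · rintro ⟨s, t, hs, ht, h⟩
    refine ⟨s * ‖P u‖, t * ‖P v‖, by positivity, by positivity, ?_⟩
    rw [h, ← smul_smul, ← smul_smul, ← F.P_eq, ← F.P_eq]

/-- a unit vector on a vertex ray is the vertex -/
theorem eq_nrm {x : E3} (hx : x ∈ sph) {v : V} {s : ℝ} (hs : 0 ≤ s) (h : x = s • P v) :
    x = nrm P v := by
  have h1 : ‖x‖ = 1 := mem_sphere_zero_iff_norm.mp hx
  rw [h, norm_smul, Real.norm_of_nonneg hs] at h1
  have h2 : s = ‖P v‖⁻¹ := eq_inv_of_mul_eq_one_left h1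
  rw [h, h2]
  rfl

theorem vertex_edge {u v w : V} (huv : F.graph.Adj u v) {s t : ℝ} (hs : 0 ≤ s) (ht : 0 ≤ t)
    (h : P w = s • P u + t • P v) : w = u ∨ w = v := by
  obtain ⟨i, rfl, rfl⟩ := huv
  by_contra hcon
  push Not at hcon
  exact F.sep i w hcon.1 hcon.2 s t hs ht h

theorem isEmbedding (hM : ∀ y, NV P y → F.M y = 6) : IsEmbedding F.graph (nrm P) where
  on_sphere := F.nrm_mem
  injective := by
    intro u v h
    by_contra hne
    have h1 : P v = (‖P v‖ * ‖P u‖⁻¹) • P u :=
      calc P v = ‖P v‖ • nrm P v := F.P_eq v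
        _ = ‖P v‖ • nrm P u := by rw [h]
        _ = (‖P v‖ * ‖P u‖⁻¹) • P u := by unfold nrm; rw [smul_smul]
    obtain ⟨i, rfl⟩ := F.vert u
    by_cases h3 : v = F.src (F.rot i)
    · have := F.pos i
      rw [← h3, h1, det3_smul2, det3_self12, mul_zero] at this
      exact lt_irrefl _ this
    · apply F.sep i v (Ne.symm hne) h3 (‖P v‖ * ‖P (F.src i)‖⁻¹) 0 (by positivity) le_rfl
      rw [zero_smul, add_zero]
      exact h1
  short := by
    rintro u v ⟨i, rfl, rfl⟩ h
    have h1 : F.A i = -(‖F.A i‖ * ‖F.B i‖⁻¹) • F.B i := by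
      have h2 := F.P_eq (F.src i)
      rw [h] at h2
      unfold A B
      rw [neg_smul, ← smul_smul, ← smul_neg]
      exact h2
    have := F.pos i
    change 0 < det3 (F.A i) (F.B i) (F.C i) at this
    rw [h1, det3_smul1, det3_self12, mul_zero] at this
    exact lt_irrefl _ this
  vertex_edge := by
    intro u v w huv hw
    rw [F.arc_iff] at hw
    obtain ⟨_, s, t, hs, ht, h⟩ := hw
    have hw0 := F.norm_pos w
    apply F.vertex_edge huv (s := ‖P w‖ * s) (t := ‖P w‖ * t) (by positivity) (by positivity)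
    rw [← smul_smul, ← smul_smul, ← smul_add, ← h, ← F.P_eq]
  edge_edge := by
    intro u v u' v' huv huv' hne x hx
    obtain ⟨hx1, hx2⟩ := hx
    rw [F.arc_iff] at hx1 hx2
    obtain ⟨hxs, s, t, hs, ht, h⟩ := hx1
    obtain ⟨_, s', t', hs', ht', h'⟩ := hx2
    have hxv : ∀ w, x = nrm P w → ∃ w, (w = u ∨ w = v) ∧ (w = u' ∨ w = v') ∧ x = nrm P w := by
      intro w hw
      have hw0 := F.norm_pos w
      refine ⟨w, ?_, ?_, hw⟩
      · apply F.vertex_edge huv (s := ‖P w‖ * s) (t := ‖P w‖ * t) (by positivity) (by positivity)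
        rw [← smul_smul, ← smul_smul, ← smul_add, ← h, hw, ← F.P_eq]
      · apply F.vertex_edge huv' (s := ‖P w‖ * s') (t := ‖P w‖ * t') (by positivity)
          (by positivity)
        rw [← smul_smul, ← smul_smul, ← smul_add, ← h', hw, ← F.P_eq]
    rcases hs.eq_or_lt with hs0 | hs0
    · rw [← hs0, zero_smul, zero_add] at h
      exact hxv v (eq_nrm hxs ht h)
    rcases ht.eq_or_lt with ht0 | ht0
    · rw [← ht0, zero_smul, add_zero] at h
      exact hxv u (eq_nrm hxs hs h)
    rcases hs'.eq_or_lt with hs0' | hs0'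
    · rw [← hs0', zero_smul, zero_add] at h'
      exact hxv v' (eq_nrm hxs ht' h')
    rcases ht'.eq_or_lt with ht0' | ht0'
    · rw [← ht0', zero_smul, add_zero] at h'
      exact hxv u' (eq_nrm hxs hs' h')
    exfalso
    obtain ⟨i, rfl, rfl⟩ := huv
    obtain ⟨j, rfl, rfl⟩ := huv'
    have hi : F.On i x := ⟨s, t, hs0, ht0, h⟩
    have hj : F.On j x := ⟨s', t', hs0', ht0', h'⟩
    rcases (F.on_unique (hM _ (F.NV_of_On hi)) hi).1 j hj with rfl | rfl
    · exact hne rfl
    · apply hne
      rw [F.src_rev, F.src_rev']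
      exact Sym2.eq_swap

/-- the drawing never meets the open cones of the faces -/
theorem In_not_drawing (hM : ∀ y, NV P y → F.M y = 6) {i : ι} {y : E3} (hy : F.In i y) :
    y ∉ drawing F.graph (nrm P) := by
  have hvert : ∀ v, ∀ s : ℝ, 0 ≤ s → y ≠ s • P v := by
    intro v s hs h
    rcases hs.eq_or_lt with h0 | h0
    · rw [← h0, zero_smul] at h
      have := ((F.In_iff_ell i y).mp hy).1
      rw [h] at this
      unfold ell at this
      rw [det3_zero3] at this
      exact lt_irrefl _ this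
    · rw [h] at hy
      exact F.not_In_vertex hM i v s h0 hy
  rintro (⟨v, hv⟩ | ⟨u, v, huv, hx⟩)
  · apply hvert v (‖P v‖⁻¹) (by positivity)
    rw [hv]
    rfl
  · rw [F.arc_iff] at hx
    obtain ⟨_, s, t, hs, ht, h⟩ := hx
    rcases hs.eq_or_lt with hs0 | hs0
    · rw [← hs0, zero_smul, zero_add] at h
      exact hvert v t ht h
    rcases ht.eq_or_lt with ht0 | ht0
    · rw [← ht0, zero_smul, add_zero] at h
      exact hvert u s hs h
    obtain ⟨j, rfl, rfl⟩ := huv
    have hj : F.On j y := ⟨s, t, hs0, ht0, h⟩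
    exact (F.on_unique (hM _ (F.NV_of_On hj)) hj).2 i hy

theorem In_iff_comb (i : ι) (x : E3) : F.In i x ↔
    ∃ r s t : ℝ, 0 < r ∧ 0 < s ∧ 0 < t ∧ x = r • F.A i + s • F.B i + t • F.C i := by
  have hp := F.posABC i
  constructor
  · rintro ⟨h1, h2, h3⟩
    refine ⟨det3 x (F.B i) (F.C i) / det3 (F.A i) (F.B i) (F.C i),
      det3 (F.A i) x (F.C i) / det3 (F.A i) (F.B i) (F.C i),
      det3 (F.A i) (F.B i) x / det3 (F.A i) (F.B i) (F.C i), by positivity, by positivity,
      by positivity, ?_⟩
    have h := cramer (F.A i) (F.B i) (F.C i) x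
    have h' : x = (det3 (F.A i) (F.B i) (F.C i))⁻¹ • (det3 (F.A i) (F.B i) (F.C i) • x) := by
      rw [smul_smul, inv_mul_cancel₀ hp.ne', one_smul]
    conv_lhs => rw [h', h]
    simp only [smul_add, smul_smul, div_eq_inv_mul]
  · rintro ⟨r, s, t, hr, hs, ht, rfl⟩
    refine ⟨?_, ?_, ?_⟩
    · have : det3 (r • F.A i + s • F.B i + t • F.C i) (F.B i) (F.C i) =
          r * det3 (F.A i) (F.B i) (F.C i) := by
        rw [det3_add1, det3_add1, det3_smul1, det3_smul1, det3_smul1, det3_self12, det3_self13]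
        ring
      rw [this]; positivity
    · have : det3 (F.A i) (r • F.A i + s • F.B i + t • F.C i) (F.C i) =
          s * det3 (F.A i) (F.B i) (F.C i) := by
        rw [det3_add2, det3_add2, det3_smul2, det3_smul2, det3_smul2, det3_self12, det3_self23]
        ring
      rw [this]; positivity
    · have : det3 (F.A i) (F.B i) (r • F.A i + s • F.B i + t • F.C i) =
          t * det3 (F.A i) (F.B i) (F.C i) := by
        rw [det3_add3, det3_add3, det3_smul3, det3_smul3, det3_smul3, det3_self13, det3_self23]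
        ring
      rw [this]; positivity

theorem openTriangle_eq (i : ι) : openTriangle (nrm P (F.src i)) (nrm P (F.src (F.rot i)))
    (nrm P (F.src (F.rot (F.rot i)))) = {x | x ∈ sph ∧ F.In i x} := by
  have ha := F.norm_pos (F.src i)
  have hb := F.norm_pos (F.src (F.rot i))
  have hc := F.norm_pos (F.src (F.rot (F.rot i)))
  ext x
  unfold openTriangle
  rw [Set.mem_ofPred, Set.mem_ofPred, F.In_iff_comb]
  refine and_congr_right fun _ => ?_
  constructor
  · rintro ⟨r, s, t, hr, hs, ht, h⟩
    refine ⟨r * ‖F.A i‖⁻¹, s * ‖F.B i‖⁻¹, t * ‖F.C i‖⁻¹, by positivity, by positivity,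
      by positivity, ?_⟩
    rw [h]
    unfold nrm
    rw [smul_smul, smul_smul, smul_smul]
  · rintro ⟨r, s, t, hr, hs, ht, h⟩
    refine ⟨r * ‖F.A i‖, s * ‖F.B i‖, t * ‖F.C i‖, by positivity, by positivity,
      by positivity, ?_⟩
    rw [h, ← smul_smul, ← smul_smul, ← smul_smul]
    have ea := F.P_eq (F.src i)
    have eb := F.P_eq (F.src (F.rot i))
    have ec := F.P_eq (F.src (F.rot (F.rot i)))
    change F.A i = ‖F.A i‖ • _ at ea
    change F.B i = ‖F.B i‖ • _ at eb
    change F.C i = ‖F.C i‖ • _ at ec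
    rw [← ea, ← eb, ← ec]

theorem isPreconnected_openTriangle (i : ι) : IsPreconnected {x | x ∈ sph ∧ F.In i x} := by
  have hconv : Convex ℝ {x | F.In i x} := by
    intro x hx y hy a b ha hb hab
    obtain ⟨r, s, t, hr, hs, ht, rfl⟩ := (F.In_iff_comb i x).mp hx
    obtain ⟨r', s', t', hr', hs', ht', rfl⟩ := (F.In_iff_comb i y).mp hy
    apply (F.In_iff_comb i _).mpr
    have hab' : 0 < a ∨ 0 < b := by
      rcases ha.eq_or_lt with h | h
      · right; linarith
      · left; exact h
    have pos : ∀ p q : ℝ, 0 < p → 0 < q → 0 < a * p + b * q := by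
      intro p q hp hq
      rcases hab' with h | h
      · have := mul_nonneg hb hq.le
        have := mul_pos h hp
        linarith
      · have := mul_nonneg ha hp.le
        have := mul_pos h hq
        linarith
    exact ⟨a * r + b * r', a * s + b * s', a * t + b * t', pos _ _ hr hr', pos _ _ hs hs',
      pos _ _ ht ht', by module⟩
  have hne : ∀ x, F.In i x → x ≠ 0 := by
    intro x hx h
    have := ((F.In_iff_ell i x).mp hx).1
    rw [h] at this
    unfold ell at this
    rw [det3_zero3] at this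
    exact lt_irrefl _ this
  have him : {x | x ∈ sph ∧ F.In i x} = (fun x : E3 => ‖x‖⁻¹ • x) '' {x | F.In i x} := by
    ext x
    constructor
    · rintro ⟨h1, h2⟩
      refine ⟨x, h2, ?_⟩
      have h3 : ‖x‖ = 1 := mem_sphere_zero_iff_norm.mp h1
      simp only [h3, inv_one, one_smul]
    · rintro ⟨y, hy, rfl⟩
      have h0 := hne y hy
      have h1 : 0 < ‖y‖ := norm_pos_iff.mpr h0
      refine ⟨?_, ?_⟩
      · unfold sph
        rw [mem_sphere_zero_iff_norm, norm_smul, norm_inv, norm_norm]
        exact inv_mul_cancel₀ h1.ne'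
      · obtain ⟨r, s, t, hr, hs, ht, h⟩ := (F.In_iff_comb i y).mp hy
        apply (F.In_iff_comb i _).mpr
        refine ⟨‖y‖⁻¹ * r, ‖y‖⁻¹ * s, ‖y‖⁻¹ * t, by positivity, by positivity, by positivity, ?_⟩
        conv_lhs => rw [h]
        simp only [smul_add, smul_smul]
        rw [← h]
  rw [him]
  apply hconv.isPreconnected.image
  exact ContinuousOn.fun_smul
    ((continuous_norm.continuousOn).inv₀ (fun x hx => (norm_pos_iff.mpr (hne x hx)).ne'))
    continuousOn_id

theorem faces_aux (hM : ∀ y, NV P y → F.M y = 6) {x : E3}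
    (hx : x ∈ sph \ drawing F.graph (nrm P)) : ∃ i, F.In i x := by
  classical
  obtain ⟨hxs, hxd⟩ := hx
  have hNV : NV P x := by
    intro v s hs h
    exact hxd (Or.inl ⟨v, eq_nrm hxs hs h⟩)
  have h0 : F.cntOn x = 0 := by
    unfold cntOn
    rw [Finset.card_eq_zero]
    apply Finset.filter_eq_empty_iff.mpr
    intro i _ hi
    apply hxd
    refine Or.inr ⟨F.src i, F.src (F.rot i), ⟨i, rfl, rfl⟩, ?_⟩
    rw [F.arc_iff]
    obtain ⟨s, t, hs, ht, h⟩ := hi
    exact ⟨hxs, s, t, hs.le, ht.le, h⟩
  have h1 := hM x hNV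
  unfold M at h1
  rw [h0] at h1
  have h2 : 0 < F.cntIn x := by omega
  unfold cntIn at h2
  obtain ⟨i, hi⟩ := Finset.card_pos.mp h2
  exact ⟨i, (Finset.mem_filter.mp hi).2⟩

/-- points of the sphere in the closed cone of a face but not in the open cone are drawn -/
theorem closed_drawn {i : ι} {y : E3} (hys : y ∈ sph) (h0 : 0 ≤ F.ell i y)
    (h1 : 0 ≤ F.ell (F.rot i) y) (h2 : 0 ≤ F.ell (F.rot (F.rot i)) y) (hn : ¬ F.In i y) :
    y ∈ drawing F.graph (nrm P) := by
  have main : ∀ j, F.ell j y = 0 → 0 ≤ F.ell (F.rot j) y → 0 ≤ F.ell (F.rot (F.rot j)) y →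
      y ∈ drawing F.graph (nrm P) := by
    intro j a b c
    refine Or.inr ⟨F.src j, F.src (F.rot j), ⟨j, rfl, rfl⟩, ?_⟩
    rw [F.arc_iff]
    refine ⟨hys, ?_⟩
    have hp := F.posABC j
    rw [ell_rot] at b
    rw [ell_rot2] at c
    unfold ell at a
    refine ⟨det3 y (F.B j) (F.C j) / det3 (F.A j) (F.B j) (F.C j),
      det3 (F.A j) y (F.C j) / det3 (F.A j) (F.B j) (F.C j), by positivity, by positivity, ?_⟩
    have h := cramer (F.A j) (F.B j) (F.C j) y
    rw [a, zero_smul, add_zero] at h
    have h' : y = (det3 (F.A j) (F.B j) (F.C j))⁻¹ • (det3 (F.A j) (F.B j) (F.C j) • y) := by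
      rw [smul_smul, inv_mul_cancel₀ hp.ne', one_smul]
    conv_lhs => rw [h', h]
    rw [smul_add, smul_smul, smul_smul]
    congr 2 <;> ring
  have hr3 := F.rot3 i
  rcases h0.eq_or_lt with e0 | e0
  · exact main i e0.symm h1 h2
  rcases h1.eq_or_lt with e1 | e1
  · exact main (F.rot i) e1.symm h2 (by rw [hr3]; exact h0)
  rcases h2.eq_or_lt with e2 | e2
  · exact main (F.rot (F.rot i)) e2.symm (by rw [hr3]; exact h0) (by rw [hr3]; exact h1)
  exact absurd ((F.In_iff_ell i y).mpr ⟨e0, e1, e2⟩) hn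

theorem face_component (hM : ∀ y, NV P y → F.M y = 6) {x : E3}
    (hx : x ∈ sph \ drawing F.graph (nrm P)) {i : ι} (hi : F.In i x) :
    connectedComponentIn (sph \ drawing F.graph (nrm P)) x = {x | x ∈ sph ∧ F.In i x} := by
  apply Set.Subset.antisymm
  · have hC : IsPreconnected (connectedComponentIn (sph \ drawing F.graph (nrm P)) x) :=
      isPreconnected_connectedComponentIn
    have hsub := connectedComponentIn_subset (sph \ drawing F.graph (nrm P)) x
    let W : Set E3 := {y | F.ell i y < 0} ∪ ({y | F.ell (F.rot i) y < 0} ∪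
      {y | F.ell (F.rot (F.rot i)) y < 0})
    have hW : IsOpen W := (isOpen_lt (F.continuous_ell _) continuous_const).union
      ((isOpen_lt (F.continuous_ell _) continuous_const).union
        (isOpen_lt (F.continuous_ell _) continuous_const))
    have hdisj : Disjoint {y | F.In i y} W := by
      rw [Set.disjoint_left]
      intro y hy hyW
      have h := (F.In_iff_ell i y).mp hy
      rcases hyW with h' | h' | h'
      · exact absurd h.1 (not_lt.mpr (le_of_lt h'))
      · exact absurd h.2.1 (not_lt.mpr (le_of_lt h'))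
      · exact absurd h.2.2 (not_lt.mpr (le_of_lt h'))
    have hcov : connectedComponentIn (sph \ drawing F.graph (nrm P)) x ⊆ {y | F.In i y} ∪ W := by
      intro y hy
      have hy' := hsub hy
      by_cases hin : F.In i y
      · exact Or.inl hin
      · right
        by_contra hcon
        simp only [W, Set.mem_union, Set.mem_ofPred_eq, not_or, not_lt] at hcon
        exact hy'.2 (F.closed_drawn hy'.1 hcon.1 hcon.2.1 hcon.2.2 hin)
    have := hC.subset_left_of_subset_union (F.isOpen_In i) hW hdisj hcov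
      ⟨x, mem_connectedComponentIn hx, hi⟩
    intro y hy
    exact ⟨(hsub hy).1, this hy⟩
  · apply (F.isPreconnected_openTriangle i).subset_connectedComponentIn
    · exact ⟨hx.1, hi⟩
    · rintro y ⟨hy1, hy2⟩
      exact ⟨hy1, F.In_not_drawing hM hy2⟩

theorem linInd (i : ι) : LinearIndependent ℝ ![nrm P (F.src i), nrm P (F.src (F.rot i)),
    nrm P (F.src (F.rot (F.rot i)))] := by
  have hp := F.pos i
  rw [F.P_eq (F.src i), F.P_eq (F.src (F.rot i)), F.P_eq (F.src (F.rot (F.rot i)))] at hp
  rw [det3_smul1, det3_smul2, det3_smul3] at hp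
  set a := nrm P (F.src i)
  set b := nrm P (F.src (F.rot i))
  set c := nrm P (F.src (F.rot (F.rot i)))
  have hne : det3 a b c ≠ 0 := by
    intro h
    rw [h] at hp
    simp at hp
  rw [Fintype.linearIndependent_iff]
  intro g hg
  rw [Fin.sum_univ_three] at hg
  simp only [Matrix.cons_val_zero, Matrix.cons_val_one, Matrix.cons_val] at hg
  have e0 : g 0 * det3 a b c = 0 := by
    have : det3 (g 0 • a + g 1 • b + g 2 • c) b c = g 0 * det3 a b c := by
      rw [det3_add1, det3_add1, det3_smul1, det3_smul1, det3_smul1, det3_self12, det3_self13]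
      ring
    rw [← this, hg, det3_zero1]
  have e1 : g 1 * det3 a b c = 0 := by
    have : det3 a (g 0 • a + g 1 • b + g 2 • c) c = g 1 * det3 a b c := by
      rw [det3_add2, det3_add2, det3_smul2, det3_smul2, det3_smul2, det3_self12, det3_self23]
      ring
    rw [← this, hg]
    simp [det3]
  have e2 : g 2 * det3 a b c = 0 := by
    have : det3 a b (g 0 • a + g 1 • b + g 2 • c) = g 2 * det3 a b c := by
      rw [det3_add3, det3_add3, det3_smul3, det3_smul3, det3_smul3, det3_self13, det3_self23]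
      ring
    rw [← this, hg, det3_zero3]
  intro k
  fin_cases k
  · exact (mul_eq_zero.mp e0).resolve_right hne
  · exact (mul_eq_zero.mp e1).resolve_right hne
  · exact (mul_eq_zero.mp e2).resolve_right hne

/-- Euler count: the number of edges is half the number of darts -/
theorem card_edges (hinj : ∀ i j, F.src i = F.src j → F.src (F.rot i) = F.src (F.rot j) → i = j)
    [Fintype V] [DecidableEq V] [DecidableRel F.graph.Adj] :
    2 * Nat.card F.graph.edgeSet = Fintype.card ι := by
  have h1 := F.graph.dart_card_eq_twice_card_edges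
  have h2 : Fintype.card F.graph.Dart = Fintype.card ι := by
    symm
    apply Fintype.card_of_bijective (f := fun i : ι =>
      (⟨(F.src i, F.src (F.rot i)), ⟨i, rfl, rfl⟩⟩ : F.graph.Dart))
    constructor
    · intro i j hij
      have h := congrArg (fun d : F.graph.Dart => d.toProd) hij
      simp only [Prod.mk.injEq] at h
      exact hinj i j h.1 h.2
    · rintro ⟨⟨u, v⟩, i, h1, h2⟩
      refine ⟨i, ?_⟩
      simp only at h1 h2
      subst h1 h2
      rfl
  rw [← h2, h1, Nat.card_eq_fintype_card, SimpleGraph.edgeFinset_card]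

theorem isTriangulation (hM : ∀ y, NV P y → F.M y = 6)
    (hcard : Nat.card F.graph.edgeSet = 3 * Nat.card V - 6) :
    IsTriangulation F.graph (nrm P) where
  embedding := F.isEmbedding hM
  maximal := hcard
  faces := by
    intro x hx
    obtain ⟨i, hi⟩ := F.faces_aux hM hx
    refine ⟨F.src i, F.src (F.rot i), F.src (F.rot (F.rot i)), ⟨i, rfl, rfl⟩,
      ⟨F.rot i, rfl, rfl⟩, ?_, F.linInd i, ?_⟩
    · apply SimpleGraph.Adj.symm
      exact ⟨F.rot (F.rot i), rfl, by rw [F.rot3]⟩
    · rw [F.face_component hM hx hi, F.openTriangle_eq]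

end Fan

end Pool.Agent.Lib.MP_b37e0c_co
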