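import Mathlib
import Pool.Agent.Lib.MP_b37e0c_co.Embed

namespace Pool.Agent.Lib.MP_b37e0c_co.Data

/-- coordinates plus 128 of the fifty vertices, in base 256 -/
def tX : ℕ := 0x818184acc8d0c2a47c5438303e5ca8c6d0c6a880583a303a5880d0c6a880583a303a5880a8c6c6a880583a303a5880a8c6d0
/-- second coordinates -/
def tY : ℕ := 0x8282d0c2a47c5438303e5c84acc8c6a880583a303a5880a8c6d080583a303a5880a8c6d0c6a8583a303a5880a8c6d0c6a880
/-- third coordinates -/
def tZ : ℕ := 0x44bc7c7c7c7c7c7c7c7c7c7c7c7c818181818181818181818181848484848484848484848484868686868686868686868686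
/-- initial vertices of the 288 darts, in base 64 -/
def tS : ℕ := 0x931bf000b92f8c030b3248cc8cb8ef5e35cbbf1bb02cabee88b5ca5ef89788a8ae5a258abb1b70289bad84a5895ae85684986d561549b71b30248b6c80954856d81580882c520508b31af0207b2b7c850752c7d47c77eb4df4c7af1ab01c6aea7874c64eb7937867aa49e486ab1a70185aa97464854aa75274576945d445a71a30144a6870544446971170472841c404a319f0103a276c44034286d06c36e73db3c39f19b00c29e66833c23e768f6826a639a3829b19700819a56423813a664e64166535934197193004096460134036560d600624318300
/-- reversed darts, in base 512 -/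
def tR : ℕ := 0x8c0560d030a45a231f8646801108780e331489c2a13177d43a1afd80475dceb8e3f9f3077a40a10f87bc2e02fc7dbc9e2ff713d9eae574415acd382399c2ef6e3a9e0e06fbcdd2e471b69b2e765379bacd683b57cbb7633992d762349b0c863b6da2cc65b0982cf593198ab55c3554ca36a2d962bf562e980b057b0d72b459aa952b74d2b95a9d502f51c8b5e27932a74a28950984baad429c4da49229f412592a8544294ec7352219028f3e22920803fa4d1284419e8f287351f8fa6d38234bc5b461b8d277321c8f068339ece26c35988c26f29198ca552c1d48c433a158a25f26168c0502798cb2542992892571d1389a3d201745c2b2e0f872471a10890381b92c823c1d8c8623f110d86a25141142c1322098422f0e0a860200f8cc5224118683227050783a0d080b63d1b1603812170204830080386c220c05808020f890180b15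
/-- the relations of the certificate: lower vertices, in base 64 -/
def tV : ℕ := 0xbeeb6caeaa689e69648e28607de75c6da6585d65544d24503ce34c
/-- first ends -/
def tU : ℕ := 0x8e28607de75c6da65831759551349140f38d2ca2481c61440c2040
/-- second ends -/
def tW : ℕ := 0x92fbadb2baa9a279a592fbadb2baa9a279a58e28607de75c6da658
/-- weights, in base 128 -/
def tL : ℕ := 0x83061c1830e0c187060c368d9b346cd9a366cd1b3658ad5ac56ad62b56b15ab

/-- first coordinate -/
def X (v : ℕ) : ℤ := Int.subNatNat (tX / 256 ^ v % 256) 128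
/-- second coordinate -/
def Y (v : ℕ) : ℤ := Int.subNatNat (tY / 256 ^ v % 256) 128
/-- third coordinate -/
def Z (v : ℕ) : ℤ := Int.subNatNat (tZ / 256 ^ v % 256) 128

/-- integer determinant -/
def dz (a b c : ℕ) : ℤ :=
  X a * (Y b * Z c - Z b * Y c) - Y a * (X b * Z c - Z b * X c) + Z a * (X b * Y c - Y b * X c)

/-- integer cross product of the horizontal parts -/
def cz (a b : ℕ) : ℤ := X a * Y b - Y a * X b

/-- initial vertex of a dart -/
def src (i : Fin 288) : Fin 50 := Fin.ofNat 50 (tS / 64 ^ i.val % 64)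
/-- reversed dart -/
def rev (i : Fin 288) : Fin 288 := Fin.ofNat 288 (tR / 512 ^ i.val % 512)
/-- next dart of the face -/
def rot (i : Fin 288) : Fin 288 := Fin.ofNat 288 (3 * (i.val / 3) + (i.val + 1) % 3)

theorem rot3 : ∀ i, rot (rot (rot i)) = i := by decide +kernel
theorem rev2 : ∀ i, rev (rev i) = i := by decide +kernel
theorem src_rev : ∀ i, src (rev i) = src (rot i) := by decide +kernel
theorem pos : ∀ i, 0 < dz (src i) (src (rot i)) (src (rot (rot i))) := by decide +kernel
theorem vert : ∀ v, ∃ i, src i = v := by decide +kernel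

theorem sep : ∀ (i : Fin 288) (w : Fin 50), w ≠ src i → w ≠ src (rot i) →
    dz (src i) (src (rot i)) w ≠ 0 ∨ dz w (src (rot i)) (src (rot (rot i))) < 0 ∨
      dz (src i) w (src (rot (rot i))) < 0 := by decide +kernel
theorem inj : ∀ i j : Fin 288, src i = src j → src (rot i) = src (rot j) → i = j := by
  decide +kernel
theorem dots : ∀ i, 0 < X (src i) * X (src (rot i)) + Y (src i) * Y (src (rot i)) +
    Z (src i) * Z (src (rot i)) := by decide +kernel
theorem cross_ne : ∀ i, cz (src i) (src (rot i)) ≠ 0 := by decide +kernel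

/-- the north pole is in the face of the dart `i` -/
def northIn (i : Fin 288) : Prop :=
  0 < cz (src (rot i)) (src (rot (rot i))) ∧ 0 < cz (src (rot (rot i))) (src i) ∧
    0 < cz (src i) (src (rot i))

instance : DecidablePred northIn := fun _ => by unfold northIn; infer_instance

/-- the south pole is in the face of the dart `i` -/
def southIn (i : Fin 288) : Prop :=
  cz (src (rot i)) (src (rot (rot i))) < 0 ∧ cz (src (rot (rot i))) (src i) < 0 ∧
    cz (src i) (src (rot i)) < 0

instance : DecidablePred southIn := fun _ => by unfold southIn; infer_instance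

theorem north_count : (Finset.univ.filter northIn).card = 3 := by decide +kernel
theorem south_exists : ∃ i, southIn i := by decide +kernel

/-- the relations -/
def rV (r : Fin 36) : Fin 50 := Fin.ofNat 50 (tV / 64 ^ r.val % 64)
/-- the relations -/
def rU (r : Fin 36) : Fin 50 := Fin.ofNat 50 (tU / 64 ^ r.val % 64)
/-- the relations -/
def rW (r : Fin 36) : Fin 50 := Fin.ofNat 50 (tW / 64 ^ r.val % 64)
/-- the weights -/
def rL (r : Fin 36) : ℤ := Int.ofNat (tL / 128 ^ r.val % 128)

theorem rel_ok : ∀ r, 0 < rL r ∧ 0 < cz (rU r) (rW r) ∧ 0 < cz (rV r) (rW r) ∧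
    0 < cz (rU r) (rV r) ∧ rV r ≠ rU r ∧ rV r ≠ rW r ∧
    cz (rU r) (rW r) * Z (rV r) < cz (rV r) (rW r) * Z (rU r) + cz (rU r) (rV r) * Z (rW r) := by
  decide +kernel

theorem rel_adj : ∀ r, ∃ i, src i = rU r ∧ src (rot i) = rW r := by decide +kernel

theorem net : ∀ x : Fin 50, ∑ r, rL r * ((if rV r = x then cz (rU r) (rW r) else 0) -
    (if rU r = x then cz (rV r) (rW r) else 0) - (if rW r = x then cz (rU r) (rV r) else 0)) ≤ 0 := by
  decide +kernel

end Pool.Agent.Lib.MP_b37e0c_co.Data
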