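import Mathlib
import Pool.Agent.Lib.MP_b37e0c_co.Data

namespace Pool.Agent.Lib.MP_b37e0c_co

open Topology Filter Data

/-- the fifty integer vectors -/
noncomputable def P50 (v : Fin 50) : E3 := !₂[(X v : ℝ), (Y v : ℝ), (Z v : ℝ)]

theorem P50_0 (v : Fin 50) : P50 v 0 = (X v : ℝ) := by simp [P50]
theorem P50_1 (v : Fin 50) : P50 v 1 = (Y v : ℝ) := by simp [P50]
theorem P50_2 (v : Fin 50) : P50 v 2 = (Z v : ℝ) := by simp [P50]

theorem north_0 : northPole 0 = 0 := by simp [northPole]
theorem north_1 : northPole 1 = 0 := by simp [northPole]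
theorem north_2 : northPole 2 = 1 := by simp [northPole]

theorem det3_P50 (a b c : Fin 50) : det3 (P50 a) (P50 b) (P50 c) = ((dz a b c : ℤ) : ℝ) := by
  unfold det3 dz
  simp only [P50_0, P50_1, P50_2]
  push_cast
  ring

theorem det3_north (a b : Fin 50) : det3 (P50 a) (P50 b) northPole = ((cz a b : ℤ) : ℝ) := by
  unfold det3 cz
  simp only [P50_0, P50_1, P50_2, north_0, north_1, north_2]
  push_cast
  ring

/-- the surface -/
noncomputable def fan : Fan (Fin 50) (Fin 288) P50 where
  src := src
  rot := rot
  rev := rev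
  rot3 := rot3
  rev2 := rev2
  src_rev := src_rev
  pos := by
    intro i
    rw [det3_P50]
    exact_mod_cast pos i
  vert := vert
  sep := by
    intro i w h1 h2 s t hs ht h
    have hp : (0 : ℝ) < det3 (P50 (src i)) (P50 (src (rot i))) (P50 (src (rot (rot i)))) := by
      rw [det3_P50]
      exact_mod_cast pos i
    rcases sep i w h1 h2 with h3 | h3 | h3
    · apply h3
      have e : det3 (P50 (src i)) (P50 (src (rot i))) (P50 w) = 0 := by
        rw [h, det3_add3, det3_smul3, det3_smul3, det3_self13, det3_self23]; ring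
      rw [det3_P50] at e
      exact_mod_cast e
    · have e : det3 (P50 w) (P50 (src (rot i))) (P50 (src (rot (rot i)))) =
          s * det3 (P50 (src i)) (P50 (src (rot i))) (P50 (src (rot (rot i)))) := by
        rw [h, det3_add1, det3_smul1, det3_smul1, det3_self12]; ring
      have e2 : det3 (P50 w) (P50 (src (rot i))) (P50 (src (rot (rot i)))) < 0 := by
        rw [det3_P50]; exact_mod_cast h3
      rw [e] at e2
      have := mul_nonneg hs hp.le
      linarith
    · have e : det3 (P50 (src i)) (P50 w) (P50 (src (rot (rot i)))) =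
          t * det3 (P50 (src i)) (P50 (src (rot i))) (P50 (src (rot (rot i)))) := by
        rw [h, det3_add2, det3_smul2, det3_smul2, det3_self12]; ring
      have e2 : det3 (P50 (src i)) (P50 w) (P50 (src (rot (rot i)))) < 0 := by
        rw [det3_P50]; exact_mod_cast h3
      rw [e] at e2
      have := mul_nonneg ht hp.le
      linarith

theorem ell_north (i : Fin 288) : fan.ell i northPole = ((cz (src i) (src (rot i)) : ℤ) : ℝ) :=
  det3_north _ _

theorem ell_north_ne (i : Fin 288) : fan.ell i northPole ≠ 0 := by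
  rw [ell_north]
  exact_mod_cast cross_ne i

theorem In_north (i : Fin 288) : fan.In i northPole ↔ northIn i := by
  rw [Fan.In_iff_ell, ell_north, ell_north, ell_north]
  unfold northIn
  change (0 < ((cz (src i) (src (rot i)) : ℤ) : ℝ) ∧
    0 < ((cz (src (rot i)) (src (rot (rot i))) : ℤ) : ℝ) ∧
    0 < ((cz (src (rot (rot i))) (src (rot (rot (rot i)))) : ℤ) : ℝ)) ↔ _
  rw [rot3]
  constructor
  · rintro ⟨a, b, c⟩
    exact ⟨by exact_mod_cast b, by exact_mod_cast c, by exact_mod_cast a⟩
  · rintro ⟨b, c, a⟩
    exact ⟨by exact_mod_cast a, by exact_mod_cast b, by exact_mod_cast c⟩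

theorem ell_neg (i : Fin 288) (x : E3) : fan.ell i (-x) = -fan.ell i x := by
  have := fan.ell_smul i (-1) x
  rw [neg_one_smul] at this
  rw [this]; ring

theorem In_south (i : Fin 288) : fan.In i (-northPole) ↔ southIn i := by
  rw [Fan.In_iff_ell, ell_neg, ell_neg, ell_neg, ell_north, ell_north, ell_north]
  unfold southIn
  change (0 < -((cz (src i) (src (rot i)) : ℤ) : ℝ) ∧
    0 < -((cz (src (rot i)) (src (rot (rot i))) : ℤ) : ℝ) ∧
    0 < -((cz (src (rot (rot i))) (src (rot (rot (rot i)))) : ℤ) : ℝ)) ↔ _
  rw [rot3, neg_pos, neg_pos, neg_pos]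
  constructor
  · rintro ⟨a, b, c⟩
    exact ⟨by exact_mod_cast b, by exact_mod_cast c, by exact_mod_cast a⟩
  · rintro ⟨b, c, a⟩
    exact ⟨by exact_mod_cast a, by exact_mod_cast b, by exact_mod_cast c⟩

theorem M_north : fan.M northPole = 6 := by
  classical
  have h1 : fan.cntIn northPole = 3 := by
    refine Eq.trans ?_ north_count
    unfold Fan.cntIn
    apply congrArg Finset.card
    apply Finset.ext
    intro i
    rw [Finset.mem_filter, Finset.mem_filter]
    exact and_congr_right fun _ => In_north i
  have h2 : fan.cntOn northPole = 0 := by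
    unfold Fan.cntOn
    rw [Finset.card_eq_zero]
    apply Finset.filter_eq_empty_iff.mpr
    intro i _ hi
    exact ell_north_ne i ((fan.On_iff_ell i _).mp hi).1
  unfold Fan.M
  rw [h1, h2]

theorem hM (y : E3) (hy : Fan.NV P50 y) : fan.M y = 6 :=
  (fan.M_const ell_north_ne hy).trans M_north

theorem card_edge : Nat.card fan.graph.edgeSet = 3 * Nat.card (Fin 50) - 6 := by
  classical
  have h := fan.card_edges inj
  rw [Fintype.card_fin] at h
  rw [Nat.card_fin]
  omega

theorem triang : IsTriangulation fan.graph (nrm P50) := fan.isTriangulation hM card_edge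

theorem north_in : ∃ i, fan.In i northPole := by
  have h : 0 < (Finset.univ.filter northIn).card := by rw [north_count]; norm_num
  obtain ⟨i, hi⟩ := Finset.card_pos.mp h
  exact ⟨i, (In_north i).mpr (Finset.mem_filter.mp hi).2⟩

theorem north_not : northPole ∉ drawing fan.graph (nrm P50) := by
  obtain ⟨i, hi⟩ := north_in
  exact fan.In_not_drawing hM hi

theorem south_not : -northPole ∉ drawing fan.graph (nrm P50) := by
  obtain ⟨i, hi⟩ := south_exists
  exact fan.In_not_drawing hM ((In_south i).mpr hi)

theorem angle_lt (u v : Fin 50) (h : fan.graph.Adj u v) :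
    InnerProductGeometry.angle (nrm P50 u) (nrm P50 v) < Real.pi / 2 := by
  obtain ⟨i, rfl, rfl⟩ := h
  have h1 : 0 < inner ℝ (P50 (src i)) (P50 (src (rot i))) := by
    rw [PiLp.inner_apply, Fin.sum_univ_three]
    simp only [P50_0, P50_1, P50_2, RCLike.inner_apply, conj_trivial]
    have := dots i
    have h2 : (0 : ℝ) < ((X (src i) * X (src (rot i)) + Y (src i) * Y (src (rot i)) +
      Z (src i) * Z (src (rot i)) : ℤ) : ℝ) := by exact_mod_cast this
    push_cast at h2
    linarith
  have ha := fan.norm_pos (src i)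
  have hb := fan.norm_pos (src (rot i))
  have h3 : InnerProductGeometry.angle (nrm P50 (src i)) (nrm P50 (src (rot i))) =
      InnerProductGeometry.angle (P50 (src i)) (P50 (src (rot i))) := by
    unfold nrm
    rw [InnerProductGeometry.angle_smul_left_of_pos _ _ (by positivity),
      InnerProductGeometry.angle_smul_right_of_pos _ _ (by positivity)]
  change InnerProductGeometry.angle (nrm P50 (src i)) (nrm P50 (src (rot i))) < Real.pi / 2
  rw [h3]
  unfold InnerProductGeometry.angle
  rw [Real.arccos_lt_pi_div_two]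
  positivity

end Pool.Agent.Lib.MP_b37e0c_co
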