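import Mathlib
import Pool.Agent.Lib.MP_b37e0c_co.Main

namespace Pool.Agent.Lib.MP_b37e0c_co

open Topology Filter Data

theorem horiz : ∀ v : Fin 50, 0 < X v * X v + Y v * Y v := by decide +kernel

/-- squared horizontal length -/
noncomputable def q2 (v : Fin 50) : ℝ := (X v : ℝ) * X v + (Y v : ℝ) * Y v

theorem q2_pos (v : Fin 50) : 0 < q2 v := by
  unfold q2
  exact_mod_cast horiz v

/-- horizontal scale of a point on the longitude of the vertex `v` -/
noncomputable def sc (v : Fin 50) (x : E3) : ℝ := (x 0 * X v + x 1 * Y v) / q2 v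

theorem continuous_sc (v : Fin 50) : Continuous (sc v) := by
  unfold sc; fun_prop

theorem long_sc {v : Fin 50} {x : E3} (hx : x ∈ longitude (nrm P50 v)) :
    0 < sc v x ∧ x 0 = sc v x * X v ∧ x 1 = sc v x * Y v := by
  obtain ⟨_, s, t, hs, h⟩ := hx
  have hn := fan.norm_pos v
  have e0 : x 0 = (s * ‖P50 v‖⁻¹) * X v := by
    rw [h]
    simp only [nrm, PiLp.add_apply, PiLp.smul_apply, smul_eq_mul, north_0, P50_0]
    ring
  have e1 : x 1 = (s * ‖P50 v‖⁻¹) * Y v := by
    rw [h]
    simp only [nrm, PiLp.add_apply, PiLp.smul_apply, smul_eq_mul, north_1, P50_1]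
    ring
  have hq := q2_pos v
  have e : sc v x = s * ‖P50 v‖⁻¹ := by
    unfold sc
    rw [e0, e1, div_eq_iff hq.ne']
    unfold q2
    ring
  rw [e]
  exact ⟨by positivity, e0, e1⟩

/-- height relative to the horizontal scale -/
noncomputable def ht (v : Fin 50) (x : E3) : ℝ := x 2 / sc v x

theorem ht_start (v : Fin 50) : ht v (nrm P50 v) = Z v := by
  have hn := fan.norm_pos v
  have hq := q2_pos v
  have e : sc v (nrm P50 v) = ‖P50 v‖⁻¹ := by
    unfold sc
    rw [div_eq_iff hq.ne']
    simp only [nrm, PiLp.smul_apply, smul_eq_mul, P50_0, P50_1]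
    unfold q2
    ring
  unfold ht
  rw [e]
  simp only [nrm, PiLp.smul_apply, smul_eq_mul, P50_2]
  field_simp

/-- three coplanar points in the position of a relation: the lower vertex is on the edge -/
theorem on_arc {v u w : Fin 50} (hA : 0 < cz u w) (hB : 0 < cz v w) (hC : 0 < cz u v)
    {x y z : E3} (hx : x ∈ longitude (nrm P50 v)) (hy : y ∈ longitude (nrm P50 u))
    (hz : z ∈ longitude (nrm P50 w))
    (h : (cz u w : ℝ) * ht v x = (cz v w : ℝ) * ht u y + (cz u v : ℝ) * ht w z) :
    x ∈ arc y z := by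
  obtain ⟨sx, x0, x1⟩ := long_sc hx
  obtain ⟨sy, y0, y1⟩ := long_sc hy
  obtain ⟨sz, z0, z1⟩ := long_sc hz
  have hA' : (0 : ℝ) < cz u w := by exact_mod_cast hA
  have hB' : (0 : ℝ) < cz v w := by exact_mod_cast hB
  have hC' : (0 : ℝ) < cz u v := by exact_mod_cast hC
  have x2 : x 2 = sc v x * ht v x := by unfold ht; field_simp
  have y2 : y 2 = sc u y * ht u y := by unfold ht; field_simp
  have z2 : z 2 = sc w z * ht w z := by unfold ht; field_simp
  refine ⟨hx.1, sc v x * cz v w / (cz u w * sc u y), sc v x * cz u v / (cz u w * sc w z),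
    by positivity, by positivity, ?_⟩
  have k0 : (cz u w : ℝ) * X v = cz v w * X u + cz u v * X w := by
    unfold cz; push_cast; ring
  have k1 : (cz u w : ℝ) * Y v = cz v w * Y u + cz u v * Y w := by
    unfold cz; push_cast; ring
  ext i
  fin_cases i
  · simp only [PiLp.add_apply, PiLp.smul_apply, smul_eq_mul, Fin.zero_eta]
    rw [x0, y0, z0]
    field_simp
    linear_combination k0
  · simp only [PiLp.add_apply, PiLp.smul_apply, smul_eq_mul, Fin.mk_one]
    rw [x1, y1, z1]
    field_simp
    linear_combination k1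
  · simp only [PiLp.add_apply, PiLp.smul_apply, smul_eq_mul, Fin.reduceFinMk]
    rw [x2, y2, z2]
    field_simp
    linear_combination h

theorem weighted (H : Fin 50 → ℝ) (hH : ∀ v, H v < 0)
    (hr : ∀ r, (cz (rU r) (rW r) : ℝ) * H (rV r) <
      cz (rV r) (rW r) * H (rU r) + cz (rU r) (rV r) * H (rW r)) : False := by
  have h1 : ∑ r, (rL r : ℝ) * ((cz (rU r) (rW r) : ℝ) * H (rV r) -
      cz (rV r) (rW r) * H (rU r) - cz (rU r) (rV r) * H (rW r)) < 0 := by
    apply Finset.sum_neg
    · intro r _
      have hl : (0 : ℝ) < rL r := by exact_mod_cast (rel_ok r).1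
      apply mul_neg_of_pos_of_neg hl
      linarith [hr r]
    · exact ⟨0, Finset.mem_univ _⟩
  have h2 : ∑ r, (rL r : ℝ) * ((cz (rU r) (rW r) : ℝ) * H (rV r) -
      cz (rV r) (rW r) * H (rU r) - cz (rU r) (rV r) * H (rW r)) =
      ∑ x, H x * ((∑ r, rL r * ((if rV r = x then cz (rU r) (rW r) else 0) -
    (if rU r = x then cz (rV r) (rW r) else 0) - (if rW r = x then cz (rU r) (rV r) else 0)) : ℤ)
      : ℝ) := by
    have e : ∀ x, H x * ((∑ r, rL r * ((if rV r = x then cz (rU r) (rW r) else 0) -
      (if rU r = x then cz (rV r) (rW r) else 0) - (if rW r = x then cz (rU r) (rV r) else 0)) : ℤ)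
      : ℝ) = ∑ r, (rL r : ℝ) * ((if rV r = x then (cz (rU r) (rW r) : ℝ) * H x else 0) -
      (if rU r = x then (cz (rV r) (rW r) : ℝ) * H x else 0) -
      (if rW r = x then (cz (rU r) (rV r) : ℝ) * H x else 0)) := by
      intro x
      push_cast
      rw [Finset.mul_sum]
      apply Finset.sum_congr rfl
      intro r _
      split_ifs <;> ring
    simp only [e]
    rw [Finset.sum_comm]
    apply Finset.sum_congr rfl
    intro r _
    rw [← Finset.mul_sum]
    congr 1
    rw [Finset.sum_sub_distrib, Finset.sum_sub_distrib]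
    simp only [Finset.sum_ite_eq, Finset.mem_univ, if_true]
  rw [h2] at h1
  have h3 : 0 ≤ ∑ x, H x * ((∑ r, rL r * ((if rV r = x then cz (rU r) (rW r) else 0) -
    (if rU r = x then cz (rV r) (rW r) else 0) - (if rW r = x then cz (rU r) (rV r) else 0)) : ℤ)
      : ℝ) := by
    apply Finset.sum_nonneg
    intro x _
    apply mul_nonneg_of_nonpos_of_nonpos (hH x).le
    exact_mod_cast net x
  linarith

theorem not_sinkable : ¬ Sinkable fan.graph (nrm P50) := by
  rintro ⟨Q, hcont, hemb, h0, hlong, hneg⟩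
  have hcH : ∀ v, Continuous fun t => ht v (Q t v) := by
    intro v
    unfold ht
    apply Continuous.div
    · have := hcont v
      fun_prop
    · exact (continuous_sc v).comp (hcont v)
    · intro t
      exact (long_sc (hlong t v)).1.ne'
  apply weighted (fun v => ht v (Q 1 v))
  · intro v
    exact div_neg_of_neg_of_pos (hneg v) (long_sc (hlong 1 v)).1
  · intro r
    obtain ⟨_, hA, hB, hC, hvu, hvw, hz⟩ := rel_ok r
    let g : unitInterval → ℝ := fun t => (cz (rU r) (rW r) : ℝ) * ht (rV r) (Q t (rV r)) -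
      (cz (rV r) (rW r) * ht (rU r) (Q t (rU r)) + cz (rU r) (rV r) * ht (rW r) (Q t (rW r)))
    have hg : Continuous g := by
      have c1 := hcH (rV r)
      have c2 := hcH (rU r)
      have c3 := hcH (rW r)
      exact (continuous_const.mul c1).sub ((continuous_const.mul c2).add (continuous_const.mul c3))
    have hg0 : g 0 < 0 := by
      simp only [g]
      rw [h0, ht_start, ht_start, ht_start, sub_neg]
      exact_mod_cast hz
    by_contra hcon
    have hg1 : 0 ≤ g 1 := by
      simp only [g]
      linarith [not_lt.mp hcon]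
    obtain ⟨t, ht0⟩ := intermediate_value_univ (0 : unitInterval) 1 hg ⟨hg0.le, hg1⟩
    have harc := on_arc hA hB hC (hlong t (rV r)) (hlong t (rU r)) (hlong t (rW r))
      (by simp only [g] at ht0; linarith)
    have hadj : fan.graph.Adj (rU r) (rW r) := rel_adj r
    rcases (hemb t).vertex_edge _ _ _ hadj harc with h | h
    · exact hvu h
    · exact hvw h

end Pool.Agent.Lib.MP_b37e0c_co
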